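import Pool.Agent.K3h84.GD.Stm
import Pool.Agent.Helper259.HtExt

/-!
# Brick EXT of helper84 (project GD): the finite and infinite parts of the height in an extension
-/

set_option autoImplicit false

namespace Pool.Agent.K3h87.GD

open Pool.Agent.K3h84.GD NumberField IsDedekindDomain Module

lemma sum_mult_eq (F : ℂ → ℝ) (hF : ∀ z, F ((starRingEnd ℂ) z) = F z) (K : Type) [Field K]
    [NumberField K] (y : K) :
    ∑ w : InfinitePlace K, (w.mult : ℝ) * F (w.embedding y) = ∑ φ : K →+* ℂ, F (φ y) := by
  classical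
  rw [← Finset.sum_fiberwise Finset.univ (fun φ : K →+* ℂ => InfinitePlace.mk φ)
    (fun φ => F (φ y))]
  refine Finset.sum_congr rfl fun w _ => ?_
  have : ∀ φ ∈ Finset.univ.filter (fun φ : K →+* ℂ => InfinitePlace.mk φ = w),
      F (φ y) = F (w.embedding y) := by
    intro φ hφ
    have h := (Finset.mem_filter.mp hφ).2
    rw [← InfinitePlace.mk_embedding w, InfinitePlace.mk_eq_iff] at h
    rcases h with h | h
    · rw [h]
    · rw [← h, ComplexEmbedding.conjugate_coe_eq, hF]
  rw [Finset.sum_congr rfl this, Finset.sum_const, InfinitePlace.card_filter_mk_eq, nsmul_eq_mul]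

lemma sum_embeddings {L M : Type} [Field L] [NumberField L] [Field M] [NumberField M]
    [Algebra L M] (g : (L →+* ℂ) → ℝ) :
    ∑ ψ : M →+* ℂ, g (ψ.comp (algebraMap L M)) = finrank L M * ∑ φ : L →+* ℂ, g φ := by
  classical
  rw [← Finset.sum_fiberwise Finset.univ (fun ψ : M →+* ℂ => ψ.comp (algebraMap L M))
    (fun ψ => g (ψ.comp (algebraMap L M))), Finset.mul_sum]
  refine Finset.sum_congr rfl fun φ _ => ?_
  have : ∀ ψ ∈ Finset.univ.filter (fun ψ : M →+* ℂ => ψ.comp (algebraMap L M) = φ),
      g (ψ.comp (algebraMap L M)) = g φ := by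
    intro ψ hψ
    rw [(Finset.mem_filter.mp hψ).2]
  rw [Finset.sum_congr rfl this, Finset.sum_const, nsmul_eq_mul,
    ← Pool.Agent.Helper259.HtExt.card_ext (L := M) φ]
  congr 2
  rw [Nat.card_eq_fintype_card, Fintype.card_subtype]

theorem exti : S_EXTI := by
  intro F hF L M _ _ _ _ _ x
  rw [sum_mult_eq F hF M, sum_mult_eq F hF L]
  exact sum_embeddings (fun φ => F (φ x))

theorem Hj_height {K : Type} [Field K] [NumberField K] (j : K) :
    Height.logHeight₁ j = ∑ w : InfinitePlace K, (w.mult : ℝ) * Real.log (max (w j) 1) +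
      ∑ᶠ v : HeightOneSpectrum (𝓞 K), Real.log (max (FinitePlace.mk v j) 1) := by
  rw [NumberField.logHeight₁_eq]
  congr 1
  · refine Finset.sum_congr rfl fun w _ => ?_
    rw [Real.posLog_eq_log_max_one (apply_nonneg _ _), max_comm]
  · rw [← finsum_comp_equiv (FinitePlace.equivHeightOneSpectrum (K := K)).symm]
    refine finsum_congr fun v => ?_
    rw [Real.posLog_eq_log_max_one (apply_nonneg _ _), max_comm]
    rfl

theorem lh_pair {K : Type} [Field K] [NumberField K] (x : K) :
    Height.logHeight₁ x = Height.logHeight ![x, 1] := by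
  rw [Height.logHeight₁_eq_log_mulHeight₁, Height.logHeight_eq_log_mulHeight,
    Height.mulHeight₁_eq_mulHeight]

theorem ht_ext {L M : Type} [Field L] [NumberField L] [Field M] [NumberField M]
    [Algebra L M] (x : L) : Height.logHeight₁ (algebraMap L M x) =
    finrank L M * Height.logHeight₁ x := by
  rw [lh_pair, lh_pair, ← Pool.Agent.Helper259.HtExt.logHeight_ext (L := M)]
  congr 1
  funext i
  fin_cases i
  · rfl
  · simp

theorem extf : S_EXTF := by
  intro L M _ _ _ _ _ x
  have h := ht_ext (M := M) x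
  rw [Hj_height, Hj_height] at h
  have h2 := exti (fun z => Real.log (max ‖z‖ 1)) (fun z => by
    show Real.log (max ‖(starRingEnd ℂ) z‖ 1) = _
    rw [RCLike.norm_conj]) L M x
  simp only [InfinitePlace.norm_embedding_eq] at h2
  rw [h2] at h
  linarith

end Pool.Agent.K3h87.GD
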